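import Pool.Agent.Lib.helper32.TowerC

set_option autoImplicit false

namespace Pool.Agent.Results.MP_c74059_gt.ProdHur

open Filter Set Cardinal Pool.Agent.Lib.helper32.Hom

universe u v

/-- The Menger property. -/
def Menger (Y : Type v) [TopologicalSpace Y] : Prop := ∀ 𝓤 : ℕ → Set (Set Y),
  (∀ n, (∀ U ∈ 𝓤 n, IsOpen U) ∧ ⋃₀ 𝓤 n = Set.univ) → ∃ 𝓕 : ℕ → Set (Set Y),
    (∀ n, (𝓕 n).Finite ∧ 𝓕 n ⊆ 𝓤 n) ∧ ∀ y, ∃ n, y ∈ ⋃₀ 𝓕 n

/-- The Hurewicz property. -/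
def Hurewicz (Y : Type v) [TopologicalSpace Y] : Prop := ∀ 𝓤 : ℕ → Set (Set Y),
  (∀ n, (∀ U ∈ 𝓤 n, IsOpen U) ∧ ⋃₀ 𝓤 n = Set.univ) → ∃ 𝓕 : ℕ → Set (Set Y),
    (∀ n, (𝓕 n).Finite ∧ 𝓕 n ⊆ 𝓤 n) ∧ ∀ y, ∀ᶠ n in atTop, y ∈ ⋃₀ 𝓕 n

theorem hur {Y : Type v} [TopologicalSpace Y] (h : Hurewicz Y) {ι : ℕ → Type}
    [∀ n, Finite (ι n)] (R : ∀ n, ι n → ℕ → Set Y → Prop)
    (h1 : ∀ n k c d V W, R n k c V → c ≤ d → W ⊆ V → R n k d W)
    (h2 : ∀ n k y, ∃ c W, IsOpen W ∧ y ∈ W ∧ R n k c W) :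
    ∃ (𝓖 : ℕ → Set (Set Y)) (g : ℕ → ℕ), (∀ n, (𝓖 n).Finite ∧ ∀ W ∈ 𝓖 n, ∀ k, R n k (g n) W) ∧
      ∀ y, ∀ᶠ n in atTop, y ∈ ⋃₀ 𝓖 n := by
  obtain ⟨𝓖, a1, a2⟩ := h (fun n => {W | IsOpen W ∧ ∃ c, ∀ k, R n k c W}) fun n =>
    ⟨fun _ h => h.1, eq_univ_of_forall fun y => by
      choose c W b1 b2 b3 using fun k => h2 n k y
      obtain ⟨d, hd⟩ := Finite.exists_le c
      exact ⟨⋂ k, W k, ⟨isOpen_iInter_of_finite b1, d, fun k =>
        h1 _ _ _ _ _ _ (b3 k) (hd k) (iInter_subset _ k)⟩, mem_iInter.2 b2⟩⟩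
  choose! c hc using fun n W (h : W ∈ 𝓖 n) => ((a1 n).2 h).2
  choose g hg using fun n => ((a1 n).1.image (c n)).bddAbove
  exact ⟨𝓖, g, fun n => ⟨(a1 n).1, fun W hW k =>
    h1 _ _ _ _ _ _ (hc n W hW k) (hg n ⟨W, hW, rfl⟩) Subset.rfl⟩, a2⟩

theorem prod {P : Set (ℕ → Bool × Bool)}
    (h0 : ∀ p, (∀ᶠ i in atTop, p i = (false, false)) → p ∈ P)
    (h1 : ∀ g : ℕ → ℕ, ∃ N : Set ℕ, (∃ᶠ n in atTop, n ∈ N) ∧ {p : P | ¬ ∀ᶠ n in atTop, n ∈ N →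
      ∀ i, n ≤ i → i < g n → p.1 i = (false, false)}.Countable)
    {Y : Type u} [TopologicalSpace Y] (h : Hurewicz Y) : Hurewicz (P × Y) := by
  intro 𝓤 hU
  have box : ∀ n (q : P) y, ∃ c W, IsOpen W ∧ y ∈ W ∧ ∃ U ∈ 𝓤 n, ∀ p : P,
      (∀ i < c, p.1 i = q.1 i) → ∀ w ∈ W, (p, w) ∈ U := fun n q y => by
    obtain ⟨U, a1, a2⟩ := ((hU n).2 ▸ mem_univ (q, y) : (q, y) ∈ ⋃₀ 𝓤 n)
    obtain ⟨a, b, b1, b2, b3, b4, b5⟩ := isOpen_prod_iff.1 ((hU n).1 U a1) q y a2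
    obtain ⟨O, b6, rfl⟩ := isOpen_induced_iff.1 b1
    obtain ⟨I, t, c3, c4⟩ := isOpen_pi_iff.1 b6 _ b3
    refine ⟨I.sup id + 1, b, b2, b4, U, a1, fun p hp w hw => b5 ⟨c4 fun i hi => ?_, hw⟩⟩
    rw [hp i (Nat.lt_succ_of_le (Finset.le_sup (f := id) hi))]
    exact (c3 i hi).2
  let tq : ∀ j, (Fin j → Bool × Bool) → P := fun j σ =>
    ⟨fun i => if h : i < j then σ ⟨i, h⟩ else (false, false),
      h0 _ ((eventually_ge_atTop j).mono fun i hi => dif_neg hi.not_gt)⟩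
  obtain ⟨𝓖, g, a1, a2⟩ := hur h (ι := fun j => Fin (j + 1) × (Fin j → Bool × Bool))
    (fun j k c W => ∃ U ∈ 𝓤 k.1, ∀ p : P, (∀ i < c, p.1 i = (tq j k.2).1 i) → ∀ w ∈ W, (p, w) ∈ U)
    (fun _ _ _ _ _ _ ⟨U, b1, b2⟩ e f => ⟨U, b1, fun p hp w hw =>
      b2 p (fun i hi => hp i (hi.trans_le e)) w (f hw)⟩) fun j k y => box _ _ y
  obtain ⟨N, a3, a4⟩ := h1 g
  obtain ⟨x, hx⟩ := (a4.insert (tq 0 fun _ => (false, false))).exists_eq_range (insert_nonempty _ _)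
  obtain ⟨𝓗, -, a5, a6⟩ := hur h (ι := fun j => Fin (j + 1))
    (fun j k _ W => ∃ U ∈ 𝓤 j, ∀ w ∈ W, (x k, w) ∈ U)
    (fun _ _ _ _ _ _ ⟨U, b1, b2⟩ _ f => ⟨U, b1, fun w hw => b2 w (f hw)⟩) fun j k y =>
      let ⟨c, W, b1, b2, U, b3, b4⟩ := box j (x k) y; ⟨c, W, b1, b2, U, b3, b4 _ fun _ _ => rfl⟩
  choose j j1 j2 using frequently_atTop.1 a3
  choose! U u1 u2 using fun n σ W (hW : W ∈ 𝓖 (j n)) =>
    (a1 (j n)).2 W hW (⟨n, Nat.lt_succ_of_le (j1 n)⟩, σ)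
  choose! V v1 v2 using fun n k W (hW : W ∈ 𝓗 n) => (a5 n).2 W hW k
  have t1 : Tendsto j atTop atTop := tendsto_atTop_mono j1 tendsto_id
  refine ⟨fun n => (⋃ σ, U n σ '' 𝓖 (j n)) ∪ ⋃ k, V n k '' 𝓗 n, fun n =>
    ⟨(finite_iUnion fun _ => (a1 _).1.image _).union (finite_iUnion fun _ => (a5 _).1.image _),
      union_subset (iUnion_subset fun σ => ?_) (iUnion_subset fun k => ?_)⟩, fun ⟨p, y⟩ => ?_⟩
  · rintro _ ⟨W, hW, rfl⟩
    exact u1 n σ W hW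
  · rintro _ ⟨W, hW, rfl⟩
    exact v1 n k W hW
  by_cases hp : ∀ᶠ n in atTop, n ∈ N → ∀ i, n ≤ i → i < g n → p.1 i = (false, false)
  · refine ((t1.eventually hp).and (t1.eventually (a2 y))).mono fun n ⟨b1, W, b2, b3⟩ =>
      ⟨_, Or.inl (mem_iUnion.2 ⟨fun i => p.1 i, W, b2, rfl⟩), u2 n _ W b2 p (fun i hi => ?_) y b3⟩
    by_cases e : i < j n
    · simp only [tq, dif_pos e]
    · simpa only [tq, dif_neg e] using b1 (j2 n) i (not_lt.1 e) hi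
  · obtain ⟨k, rfl⟩ := (hx ▸ mem_insert_of_mem _ hp : p ∈ range x)
    exact ((eventually_ge_atTop k).and (a6 y)).mono fun n ⟨b1, W, b2, b3⟩ =>
      ⟨_, Or.inr (mem_iUnion.2 ⟨⟨k, Nat.lt_succ_of_le b1⟩, W, b2, rfl⟩), v2 n _ W b2 y b3⟩

theorem result (hCH : continuum.{0} = aleph 1) : ∃ (X : Type) (_ : TopologicalSpace X),
    (∀ (Y : Type u) [TopologicalSpace Y], Hurewicz Y → Hurewicz (X × Y)) ∧
      ∃ (M : Type) (_ : TopologicalSpace M), Menger M ∧ ¬ Menger (X × M) := by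
  classical
  obtain ⟨Y, a1, a2, a3, a4⟩ := towc hCH
  let s : (ℕ → Bool) → Set ℕ := fun x => {n | x n = true}
  let χ : Set ℕ → ℕ → Bool := fun A n => decide (n ∈ A)
  have s1 : ∀ A, s (χ A) = A := fun A => by ext n; simp [s, χ]
  have s2 : ∀ x, χ (s x) = x := fun x => by ext n; simp [s, χ]
  obtain ⟨A0, hA0, -⟩ := a3 id
  have c1 : ¬ Y.Countable := fun h => by
    obtain ⟨z, rfl⟩ := h.exists_eq_range ⟨A0, hA0⟩
    choose f f1 f2 using fun k => (a1 _ ⟨k, rfl⟩).exists_gt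
    obtain ⟨_, ⟨k, rfl⟩, hk⟩ := a3 fun n => (Finset.range n).sup (fun k => f k n) + 1
    obtain ⟨n, c1, c2⟩ := (hk.and_eventually (eventually_gt_atTop k)).exists
    exact (c1 _ (f1 k n)).elim (f2 k n).not_gt (Nat.lt_succ_of_le
      (Finset.le_sup (f := fun k => f k n) (Finset.mem_range.2 c2))).not_ge
  obtain ⟨ι⟩ : #(ℕ → ℕ) ≤ #Y := by
    refine le_trans (by simp [hCH]) (not_lt.1 fun e => c1 ((countable_iff_lt_aleph_one _).2 e))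
  let φ : Set ℕ → ℕ → ℕ := Function.extend (fun f => (ι f).1) id fun _ => id
  have c2 : ∀ f, φ (ι f).1 = f := fun f =>
    (Subtype.val_injective.comp ι.injective).extend_apply _ _ f
  have c3 : ∀ A : Set ℕ, ∃ e : ℕ → ℕ, A.Infinite → StrictMono e ∧ ∀ n, e n ∈ A ∧ φ A n ≤ e n :=
    fun A => by
      by_cases h : A.Infinite
      · choose f f1 f2 using h.exists_gt
        refine ⟨fun n => n.rec (f (φ A 0)) fun n b => f (b + φ A (n + 1)), fun _ =>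
          ⟨strictMono_nat_of_lt_succ fun n => (Nat.le_add_right _ _).trans_lt (f2 _), fun n => ?_⟩⟩
        cases n
        exacts [⟨f1 _, (f2 _).le⟩, ⟨f1 _, (Nat.le_add_left _ _).trans (f2 _).le⟩]
      · exact ⟨id, fun e => absurd e h⟩
  choose e he using c3
  let pt : Set ℕ → ℕ → Bool × Bool := fun A i => (χ A i, χ (range (e A)) i)
  let P : Set (ℕ → Bool × Bool) := pt '' Y ∪ {p | ∀ᶠ i in atTop, p i = (false, false)}
  refine ⟨P, inferInstance, fun Z _ => prod (fun p => Or.inr) fun g => ?_, s ⁻¹' Y, inferInstance,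
    fun 𝓤 h => ?_, fun h => ?_⟩
  · obtain ⟨C, hC, h⟩ := a3 g
    refine ⟨_, h, (((a2 C hC).image pt).preimage Subtype.val_injective).mono ?_⟩
    rintro ⟨_, ⟨A, hA, rfl⟩ | hp⟩ hq
    · refine ⟨A, ⟨hA, fun f => hq ?_⟩, rfl⟩
      obtain ⟨m, hm⟩ := eventually_atTop.1 f
      refine (eventually_ge_atTop m).mono fun n hn b1 i b2 b3 => ?_
      have b4 : i ∉ A := fun b4 => (b1 i (hm i (hn.trans b2) b4)).elim b2.not_gt b3.not_ge
      have b5 : i ∉ range (e A) := fun ⟨k, hk⟩ => b4 (hk ▸ ((he A (a1 A hA)).2 k).1)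
      simp only [pt, χ, b4, b5, decide_false]
    · obtain ⟨m, hm⟩ := eventually_atTop.1 hp
      exact (hq ((eventually_ge_atTop m).mono fun n hn _ i b2 _ => hm i (hn.trans b2))).elim
  · have d1 : ∀ n, ∃ V : ℕ → Set (s ⁻¹' Y), (∀ i, V i ∈ 𝓤 n) ∧ ∀ y, ∃ i, y ∈ V i := fun n => by
      obtain ⟨T, t1, t2, t3⟩ := TopologicalSpace.isOpen_sUnion_countable (𝓤 n) (h n).1
      rw [(h n).2] at t3
      obtain ⟨U, t4, -⟩ := (t3 ▸ mem_univ _ : (⟨χ A0, by rwa [mem_preimage, s1]⟩ : s ⁻¹' Y) ∈ ⋃₀ T)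
      obtain ⟨V, rfl⟩ := t1.exists_eq_range ⟨U, t4⟩
      exact ⟨V, fun i => t2 ⟨i, rfl⟩, fun y =>
        let ⟨_, ⟨i, rfl⟩, e⟩ := (t3 ▸ mem_univ y : y ∈ ⋃₀ range V); ⟨i, e⟩⟩
    choose V v1 v2 using d1
    choose W w1 w2 using fun n i => isOpen_induced_iff.1 ((h n).1 _ (v1 n i))
    obtain ⟨k, m, b1, -, b2, -⟩ := a4 (fun n m A => ∃ i ≤ m, χ A ∈ W n i)
      (fun n m A ⟨i, d1, hA⟩ => by
        obtain ⟨I, t, c3, c4⟩ := isOpen_pi_iff.1 (w1 n i) _ hA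
        exact ⟨I.sup id + 1, fun L hL => ⟨i, d1, c4 fun i hi => by
          have c5 : χ L i = χ A i := by
            simp [χ, hL i (Nat.lt_succ_of_le (Finset.le_sup (f := id) hi))]
          exact c5 ▸ (c3 i hi).2⟩⟩) fun n F c3 c4 => Eventually.frequently
        ((eventually_all_finite c3).2 fun A hA => by
          obtain ⟨i, hi⟩ := v2 n ⟨χ A, by rw [mem_preimage, s1]; exact c4 hA⟩
          rw [← w2] at hi
          exact (eventually_ge_atTop i).mono fun m hm => ⟨i, hm, hi⟩)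
    refine ⟨fun n => ⋃ j ∈ {j | k j = n}, V n '' Iic (m j), fun n =>
      ⟨(Set.Subsingleton.finite fun i hi j hj => b1.injective (hi.trans hj.symm)).biUnion
        fun j _ => (finite_Iic _).image _, iUnion₂_subset fun j _ => ?_⟩, fun y =>
          let ⟨j, i, d1, d2⟩ := (b2 _ y.2).exists
          ⟨k j, V (k j) i, mem_iUnion₂.2 ⟨j, rfl, i, d1, rfl⟩, by rw [← w2]; rwa [s2] at d2⟩⟩
    rintro _ ⟨i, -, rfl⟩
    exact v1 n i
  let O : ℕ → ℕ → Set (P × (s ⁻¹' Y)) := fun n m => {q | (fun i => (q.1.1 i).1) ≠ q.2.1} ∪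
    {q | n < (Finset.univ.filter fun i : Fin m => (q.1.1 i).2 = true).card}
  have k0 : ∀ i, Continuous fun q : P × (s ⁻¹' Y) => q.1.1 i := fun i =>
    (continuous_apply i).comp (continuous_subtype_val.comp continuous_fst)
  obtain ⟨𝓕, b1, b2⟩ := h (fun n => range (O n)) fun n => ⟨by
      rintro _ ⟨m, rfl⟩
      exact (isOpen_ne_fun (continuous_pi fun i => (k0 i).fst) (by fun_prop)).union
        ((isOpen_discrete {σ : Fin m → Bool | n < (Finset.univ.filter fun i => σ i = true).card}).preimage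
          (f := fun q : P × (s ⁻¹' Y) => fun i : Fin m => (q.1.1 i).2)
            (continuous_pi fun i => (k0 i).snd)),
    eq_univ_of_forall fun ⟨⟨p, hp⟩, z⟩ => by
      rcases hp with ⟨A, hA, rfl⟩ | hp
      · refine ⟨_, ⟨e A n + 1, rfl⟩, Or.inr ?_⟩
        have d1 := (he A (a1 A hA)).1
        refine lt_of_lt_of_le (by simp) (Finset.card_le_card_of_injOn
          (s := (Finset.univ : Finset (Fin (n + 1)))) (fun k => ⟨e A k, Nat.lt_succ_of_le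
            (d1.monotone (Nat.lt_succ_iff.1 k.2))⟩) (fun k _ => by simp [pt, χ])
              fun k _ l _ f => Fin.ext (d1.injective (congrArg Fin.val f)))
      · refine ⟨_, ⟨0, rfl⟩, Or.inl fun f => ?_⟩
        obtain ⟨i, d1, d2⟩ := ((Nat.frequently_atTop_iff_infinite.2 (a1 _ z.2)).and_eventually
          hp).exists
        have d3 : (p i).1 = z.1 i := congrFun f i
        rw [d2, (d1 : z.1 i = true)] at d3
        exact absurd d3 (by simp)⟩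
  choose! μ hμ using fun n W (hW : W ∈ 𝓕 n) => (b1 n).2 hW
  choose f hf using fun n => ((b1 n).1.image (μ n)).bddAbove
  obtain ⟨n, W, d1, d2⟩ := b2 (⟨pt (ι f).1, Or.inl ⟨_, (ι f).2, rfl⟩⟩,
    ⟨χ (ι f).1, by rw [mem_preimage, s1]; exact (ι f).2⟩)
  rw [← hμ n W d1] at d2
  rcases d2 with d2 | d2
  · exact d2 rfl
  obtain ⟨d3, d4⟩ := he _ (a1 _ (ι f).2)
  refine d2.not_ge (le_trans (Finset.card_le_card_of_injOn (t := (Finset.range n).image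
    (e (ι f).1)) Fin.val (fun i hi => ?_) Fin.val_injective.injOn)
      (Finset.card_image_le.trans (Finset.card_range n).le))
  obtain ⟨k, hk⟩ : ∃ k, e (ι f).1 k = i := by simpa [pt, χ] using hi
  refine Finset.mem_coe.2 (Finset.mem_image.2 ⟨k, Finset.mem_range.2 (d3.lt_iff_lt.1 ?_), hk⟩)
  have d5 := (d4 n).2
  rw [c2] at d5
  exact hk ▸ (i.2.trans_le (hf n ⟨W, d1, rfl⟩)).trans_le d5

end Pool.Agent.Results.MP_c74059_gt.ProdHur
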